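import Mathlib
import Pool.Agent.Helper284.CPFam
import Pool.Agent.Helper284.CPCrit
import Pool.Agent.Y300.CP.Lib
import Pool.Agent.Y372.CP.Lev
import Pool.Agent.Y580.CPG.Ind
import Pool.Agent.Y580.CPG.Card
import Pool.Agent.Y308.CPG.Asym

/-!
# The number of critical periods: a larger constant

`T(n) ≥ c n² log n` for every `c < 1 / (12 log 2)` and all large `n` (a stronger form of
`CriticalPeriodsGrowth`, where the constant is `1/640`).

Sketch. The system `z' = i p(z) z (z^k - 1)`, `k = m 2^K`, `p` a real polynomial of degree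
`N ≥ 2k` close to one, has centres at the roots of unity `z^k = 1`; level `j ≤ K - 2` consists of
the `m 2^(j+1)` centres with `z^(m 2^j) = ± i`. The perturbation of level `j` is a combination of
`|z|^(2b) Im z^a`, `a` an odd multiple of `m 2^j`, `2b + a < 2k`; it does not act (in first
order) on the centres of lower levels, and acts in the same way, up to sign, on all centres of its
level. The number of linearly independent functions of the amplitude obtained is about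
`3 k^2 / (8 m 2^j)`, hence every level gives about `3 k²/4` critical periods, and
`n = N + k + 1 ≈ 3k`.
-/

set_option autoImplicit false

namespace Pool.Agent.Results.MP_48dd78_an.LargerConstant

open Set Filter Topology
open Pool.Agent.Helper284.CPPoly (pv pv_add pv_sub pv_mul pv_pow pv_C pv_one pv_X0 pv_X1 pv_sum
  pv_continuous AB AB_eval AB_deg2 Pf Qf PQ_eval PQ_deg)
open Pool.Agent.Helper284.CPGeo
open Pool.Agent.Helper284.CPInt (mono_integral pv_circ_cont)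
open Pool.Agent.Helper284.CPB (Phi)
open Pool.Agent.Helper284.CPExp (Tp gen_expand pv_bdd sign_abs)
open Pool.Agent.Helper284.CPFam
open Pool.Agent.Y300.CP

/-! ### Definitions used in the statement -/

/-- The planar polynomial vector field with components `P` and `Q`. -/
noncomputable def field (P Q : MvPolynomial (Fin 2) ℝ) (z : ℝ × ℝ) : ℝ × ℝ :=
  (MvPolynomial.eval ![z.1, z.2] P, MvPolynomial.eval ![z.1, z.2] Q)

/-- `O` is a non-constant periodic orbit of the vector field `F`, and `T` is its minimal period. -/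
def IsPeriodicOrbit (F : ℝ × ℝ → ℝ × ℝ) (O : Set (ℝ × ℝ)) (T : ℝ) : Prop :=
  ∃ γ : ℝ → ℝ × ℝ, (∀ t, HasDerivAt γ (F (γ t)) t) ∧ Set.range γ = O ∧ 0 < T ∧
    (∀ t, γ (t + T) = γ t) ∧ ∀ τ, 0 < τ → τ < T → γ τ ≠ γ 0

/-- A smooth one-parameter continuum of periodic orbits `O s`, `s ∈ (0, L)`, ending at a centre `p`:
the orbit `O s` is periodic with minimal period `T s` and passes through the point `σ s` of a smooth
arc transversal to the field; different parameters give different orbits; the orbits shrink to the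
equilibrium `p` as `s → 0`, and together with `p` they fill a neighbourhood of `p`. -/
structure IsCenterFamily (F : ℝ × ℝ → ℝ × ℝ) (p : ℝ × ℝ) (L : ℝ) (σ : ℝ → ℝ × ℝ)
    (O : ℝ → Set (ℝ × ℝ)) (T : ℝ → ℝ) : Prop where
  equilibrium : F p = 0
  periodic : ∀ s ∈ Ioo 0 L, IsPeriodicOrbit F (O s) (T s)
  mem : ∀ s ∈ Ioo 0 L, σ s ∈ O s
  smooth_arc : ContDiffOn ℝ (⊤ : ℕ∞) σ (Ioo 0 L)
  transversal : ∀ s ∈ Ioo 0 L,
    (deriv σ s).1 * (F (σ s)).2 - (deriv σ s).2 * (F (σ s)).1 ≠ 0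
  smooth_period : ContDiffOn ℝ (⊤ : ℕ∞) T (Ioo 0 L)
  injective : ∀ s ∈ Ioo 0 L, ∀ s' ∈ Ioo 0 L, O s = O s' → s = s'
  shrink : ∀ U ∈ 𝓝 p, ∃ δ, 0 < δ ∧ ∀ s ∈ Ioo 0 L, s < δ → O s ⊆ U
  center : insert p (⋃ s ∈ Ioo 0 L, O s) ∈ 𝓝 p

/-- The set of critical periodic orbits of the field `F`, over all its period annuli: the orbits
`O s` of the continua ending at a centre for which `s` is an isolated zero of `T'`. -/
def criticalOrbits (F : ℝ × ℝ → ℝ × ℝ) : Set (Set (ℝ × ℝ)) :=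
  {C | ∃ (p : ℝ × ℝ) (L : ℝ) (σ : ℝ → ℝ × ℝ) (O : ℝ → Set (ℝ × ℝ)) (T : ℝ → ℝ),
    IsCenterFamily F p L σ O T ∧ ∃ s ∈ Ioo 0 L, deriv T s = 0 ∧
      (∀ᶠ r in 𝓝[≠] s, deriv T r ≠ 0) ∧ O s = C}

/-- The maximal number (an extended natural number) of critical periods of planar polynomial
systems of degree `n`, counted over all period annuli. -/
noncomputable def maxCriticalPeriods (n : ℕ) : ℕ∞ :=
  ⨆ (P : MvPolynomial (Fin 2) ℝ) (Q : MvPolynomial (Fin 2) ℝ)
    (_ : max P.totalDegree Q.totalDegree = n), (criticalOrbits (field P Q)).encard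

/-! ### Proof -/

theorem field_toR (P Q : MvPolynomial (Fin 2) ℝ) (w : ℂ) :
    field P Q (toR w) = (pv P w, pv Q w) := rfl

theorem field_val (k : ℕ) (p : MvPolynomial (Fin 2) ℝ) (w : ℂ) :
    field (Pf k p) (Qf k p) (toR w) = toR (Complex.I * pv p w * w * (w ^ k - 1)) := by
  rw [field_toR, (PQ_eval k p w).1, (PQ_eval k p w).2]
  rfl

theorem family {k : ℕ} (hk : 0 < k) {ζ : ℂ} (hζ : ζ ^ k = 1) (hζ0 : ζ ≠ 0)
    (p : MvPolynomial (Fin 2) ℝ) {L : ℝ} (hL0 : 0 < L) (hL1 : L < 1)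
    (hpos : ∀ v : ℂ, ‖v‖ ≤ L → 0 < pv p (Wf k ζ v)) :
    IsCenterFamily (field (Pf k p) (Qf k p)) (toR ζ) L (fun s => toR (Wf k ζ (s:ℂ)))
      (Orb k ζ) (Tp k ζ p) := by
  have hsub : ∀ s ∈ Ioo 0 L, s ∈ Ioo (0:ℝ) 1 := fun s hs => ⟨hs.1, hs.2.trans hL1⟩
  have hposc : ∀ s ∈ Ioo 0 L, ∀ φ : ℝ, 0 < pv p (Wf k ζ ((s:ℂ) * Complex.exp (φ * Complex.I))) :=
    fun s hs φ => hpos _ (by rw [norm_circ hs.1.le]; exact hs.2.le)
  have hkc : (k:ℂ) ≠ 0 := by exact_mod_cast hk.ne'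
  have hkr : (0:ℝ) < k := by exact_mod_cast hk
  constructor
  · rw [field_val, hζ]
    simp [toR]
  · intro s hs
    obtain ⟨γ, h1, h2, h3, h4, h5⟩ := orbit hk hζ (pv_continuous p) hs.1 (hsub s hs).2 (hposc s hs)
    refine ⟨fun t => toR (γ t), ?_, ?_, h3, ?_, ?_⟩
    · intro t
      rw [field_val]
      exact toR_deriv (h1 t)
    · ext z
      constructor
      · rintro ⟨t, rfl⟩
        have h6 : γ t ∈ range γ := ⟨t, rfl⟩
        rw [h2] at h6
        obtain ⟨φ, hφ⟩ := h6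
        exact ⟨φ, congrArg toR hφ⟩
      · rintro ⟨φ, rfl⟩
        have h6 : Wf k ζ ((s:ℂ) * Complex.exp (φ * Complex.I)) ∈ range γ := by
          rw [h2]; exact ⟨φ, rfl⟩
        obtain ⟨t, ht⟩ := h6
        exact ⟨t, by simp only [ht]⟩
    · intro t
      have := h4 t
      simp only [Tp]
      rw [this]
    · intro τ h6 h7 h8
      exact h5 τ h6 h7 (toR_inj h8)
  · intro s hs
    refine ⟨0, ?_⟩
    simp
  · intro s hs
    exact (section_smooth k ζ hs.1 (hsub s hs).2).contDiffWithinAt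
  · intro s hs
    rw [(section_deriv k ζ hs.1 (hsub s hs).2).deriv, field_val, Wf_pow hk hζ]
    have hs1 : (0:ℝ) < 1 - s := by linarith [(hsub s hs).2]
    have hs1c : (1 - (s:ℂ)) ≠ 0 := by
      have : ((1 - s : ℝ) : ℂ) ≠ 0 := by exact_mod_cast hs1.ne'
      simpa using this
    have hp : 0 < pv p (Wf k ζ (s:ℂ)) := by
      have := hposc s hs 0
      simpa using this
    have hW : Wf k ζ (s:ℂ) ≠ 0 := by
      intro h0
      have h1 := Wf_pow hk hζ (s:ℂ)
      rw [h0, zero_pow hk.ne'] at h1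
      exact one_div_ne_zero hs1c h1.symm
    have e1 : Wf k ζ (s:ℂ) * ((1:ℂ) / k) / (1 - (s:ℂ)) =
        Wf k ζ (s:ℂ) * ((1 / k / (1 - s) : ℝ) : ℂ) := by
      push_cast; ring
    have e2 : Complex.I * (pv p (Wf k ζ (s:ℂ)) : ℂ) * Wf k ζ (s:ℂ) * (1 / (1 - (s:ℂ)) - 1) =
        Complex.I * ((pv p (Wf k ζ (s:ℂ)) * (s / (1 - s)) : ℝ) : ℂ) * Wf k ζ (s:ℂ) := by
      push_cast
      field_simp
      ring
    rw [e1, e2]
    exact cross hW (by positivity) (mul_pos hp (div_pos hs.1 hs1))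
  · intro s hs
    exact (Tp_analytic hk ζ p hs.1 (hsub s hs).2 (hposc s hs)).contDiffAt.contDiffWithinAt
  · intro s hs s' hs' h
    exact (Orb_inj hk hζ hζ (hsub s hs) (hsub s' hs') h).2
  · intro U hU
    have h1 : toR ⁻¹' U ∈ 𝓝 ζ := toR_cont.continuousAt hU
    obtain ⟨δ, hδ, h2⟩ := Wf_ends k ζ h1
    refine ⟨δ, hδ, ?_⟩
    rintro s hs hsδ z ⟨φ, rfl⟩
    exact h2 _ (by rw [norm_circ hs.1.le]; exact hsδ)
  · have h1 := Wf_nhds k hk hζ0 hL0
    have h2 : toR '' {w | ∃ v : ℂ, ‖v‖ < L ∧ w = Wf k ζ v} ∈ 𝓝 (toR ζ) := by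
      have h3 : (fun z : ℝ × ℝ => (⟨z.1, z.2⟩ : ℂ)) ⁻¹' {w | ∃ v : ℂ, ‖v‖ < L ∧ w = Wf k ζ v}
          ∈ 𝓝 (toR ζ) := by
        have hc : Continuous (fun z : ℝ × ℝ => (⟨z.1, z.2⟩ : ℂ)) :=
          Complex.equivRealProdCLM.symm.continuous
        exact hc.continuousAt h1
      filter_upwards [h3] with z hz
      exact ⟨_, hz, rfl⟩
    refine Filter.mem_of_superset h2 ?_
    rintro z ⟨w, ⟨v, hv, rfl⟩, rfl⟩
    by_cases hv0 : v = 0
    · subst hv0
      rw [Wf_zero]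
      exact mem_insert _ _
    · refine mem_insert_of_mem _ ?_
      rw [mem_iUnion₂]
      refine ⟨‖v‖, ⟨norm_pos_iff.mpr hv0, hv⟩, Complex.arg v, ?_⟩
      rw [Complex.norm_mul_exp_arg_mul_I]

theorem lower_bound (hlevel : S_LEVEL) {m K N : ℕ} (hm : 1 ≤ m) (hK : 2 ≤ K)
    (hN : 2 * (m * 2 ^ K) ≤ N) :
    ((∑ j ∈ Finset.range (K - 1), m * 2 ^ (j + 1) * ((Ix m K j).card - 1) : ℕ) : ℕ∞)
      ≤ maxCriticalPeriods (N + (m * 2 ^ K + 1)) := by
  have hlev : ∀ j, ∃ x : ℕ → ℝ, ∃ d : ℕ × ℕ → ℝ, j ≤ K - 2 →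
      (∀ i i', i < i' → i' ≤ (Ix m K j).card → x i < x i') ∧
      (∀ i, i ≤ (Ix m K j).card → x i ∈ Ioo (0:ℝ) 1) ∧
      ∀ i, i < (Ix m K j).card →
        GG m K j d (x (i + 1)) - GG m K j d (x i) = -(2 * (-1) ^ i) := by
    intro j
    by_cases hj : j ≤ K - 2
    · obtain ⟨x, h1, h2, d, h3⟩ := hlevel m K j hm hK hj
      exact ⟨x, d, fun _ => ⟨h1, h2, h3⟩⟩
    · exact ⟨fun _ => 0, fun _ => 0, fun h => absurd h hj⟩
  choose x d hxd using hlev
  -- common bound for the amplitudes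
  obtain ⟨L, hL⟩ : ∃ L : ℝ, (0 < L ∧ L < 1) ∧ ∀ j ∈ Finset.range (K - 1),
      ∀ i ∈ Finset.range ((Ix m K j).card + 1), x j i < L := by
    have h1 : ∀ᶠ L in 𝓝[<] (1:ℝ), 0 < L ∧ L < 1 := by
      filter_upwards [Ioo_mem_nhdsLT (zero_lt_one' ℝ)] with L hL using hL
    have h2 : ∀ᶠ L in 𝓝[<] (1:ℝ), ∀ j ∈ Finset.range (K - 1),
        ∀ i ∈ Finset.range ((Ix m K j).card + 1), x j i < L := by
      rw [Filter.eventually_all_finset]
      intro j hj
      rw [Filter.eventually_all_finset]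
      intro i hi
      rw [Finset.mem_range] at hi hj
      have h3 := ((hxd j (by omega)).2.1 i (by omega)).2
      filter_upwards [Ioo_mem_nhdsLT h3] with L hL using hL.1
    exact (h1.and h2).exists
  obtain ⟨⟨hL0, hL1⟩, hL⟩ := hL
  -- choice of the small parameter
  obtain ⟨ε, hε⟩ : ∃ ε : ℝ, 0 < ε ∧ ∀ j ∈ Finset.range (K - 1),
      ∀ u ∈ Finset.range (m * 2 ^ (j + 1)),
      (∀ v : ℂ, ‖v‖ ≤ L → 0 < pv (pf m K N d ε) (Wf (m * 2 ^ K) (zt m j u) v)) ∧
      ∀ i ∈ Finset.range ((Ix m K j).card), 0 < -((-1) ^ u * (-(2 * (-1) ^ i))) *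
        (Tp (m * 2 ^ K) (zt m j u) (pf m K N d ε) (x j (i + 1)) -
          Tp (m * 2 ^ K) (zt m j u) (pf m K N d ε) (x j i)) := by
    have h1 : ∀ᶠ ε in 𝓝[>] (0:ℝ), 0 < ε := eventually_mem_nhdsWithin
    have h2 : ∀ᶠ ε in 𝓝[>] (0:ℝ), ∀ j ∈ Finset.range (K - 1),
        ∀ u ∈ Finset.range (m * 2 ^ (j + 1)),
      (∀ v : ℂ, ‖v‖ ≤ L → 0 < pv (pf m K N d ε) (Wf (m * 2 ^ K) (zt m j u) v)) ∧
      ∀ i ∈ Finset.range ((Ix m K j).card), 0 < -((-1) ^ u * (-(2 * (-1) ^ i))) *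
        (Tp (m * 2 ^ K) (zt m j u) (pf m K N d ε) (x j (i + 1)) -
          Tp (m * 2 ^ K) (zt m j u) (pf m K N d ε) (x j i)) := by
      rw [Filter.eventually_all_finset]
      intro j hj
      rw [Filter.eventually_all_finset]
      intro u hu
      refine (pos_eventually m hK N d (zt m j u) hL1).and ?_
      rw [Filter.eventually_all_finset]
      intro i hi
      rw [Finset.mem_range] at hi hj
      obtain ⟨a1, a2, a3⟩ := hxd j (by omega)
      refine sign_eventually hm hK N d (by omega) u (a2 i (by omega)) (a2 (i + 1) (by omega))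
        (a3 i hi) ?_
      simp
    exact (h1.and h2).exists
  obtain ⟨hε0, hε⟩ := hε
  set p := pf m K N d ε with hp
  set k : ℕ := m * 2 ^ K with hk
  have hkpos : 0 < k := by rw [hk]; positivity
  -- critical points in every cell
  have hcrit : ∀ j u, ∃ s : ℕ → ℝ, j ∈ Finset.range (K - 1) →
      u ∈ Finset.range (m * 2 ^ (j + 1)) →
      (∀ i, i + 1 < (Ix m K j).card → s i ∈ Ioo 0 L ∧
        deriv (Tp k (zt m j u) p) (s i) = 0 ∧
        ∀ᶠ r in 𝓝[≠] (s i), deriv (Tp k (zt m j u) p) r ≠ 0) ∧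
      ∀ i i', i < i' → i' + 1 < (Ix m K j).card → s i < s i' := by
    intro j u
    by_cases h : j ∈ Finset.range (K - 1) ∧ u ∈ Finset.range (m * 2 ^ (j + 1))
    · obtain ⟨hj, hu⟩ := h
      obtain ⟨b1, b2⟩ := hε j hj u hu
      have hj' : j ≤ K - 2 := by rw [Finset.mem_range] at hj; omega
      obtain ⟨a1, a2, a3⟩ := hxd j hj'
      have hT : ∀ s ∈ Ioo 0 L, AnalyticAt ℝ (Tp k (zt m j u) p) s := fun s hs =>
        Tp_analytic hkpos (zt m j u) p hs.1 (hs.2.trans hL1)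
          (fun φ => b1 _ (by rw [norm_circ hs.1.le]; exact hs.2.le))
      obtain ⟨s, c1, c2⟩ := Pool.Agent.Helper284.CPCrit.crit_points hT (x j) a1
        (fun i hi => ⟨(a2 i hi).1, hL j hj i (Finset.mem_range.mpr (by omega))⟩)
        (2 * (-1) ^ u) (fun i hi => by
          have := b2 i (Finset.mem_range.mpr hi)
          have e : -((-1:ℝ) ^ u * (-(2 * (-1) ^ i))) = 2 * (-1) ^ u * (-1) ^ i := by ring
          rw [e] at this
          exact this)
      exact ⟨s, fun _ _ => ⟨c1, c2⟩⟩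
    · exact ⟨fun _ => 0, fun h1 h2 => absurd ⟨h1, h2⟩ h⟩
  choose s hs using hcrit
  -- the index set
  set A : Finset (Σ _ : ℕ, ℕ × ℕ) := Finset.sigma (Finset.range (K - 1))
    (fun j => (Finset.range (m * 2 ^ (j + 1))) ×ˢ
      (Finset.range ((Ix m K j).card - 1))) with hA
  have hAcard : A.card = ∑ j ∈ Finset.range (K - 1),
      m * 2 ^ (j + 1) * ((Ix m K j).card - 1) := by
    rw [hA, Finset.card_sigma]
    refine Finset.sum_congr rfl (fun j _ => ?_)
    rw [Finset.card_product, Finset.card_range, Finset.card_range]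
  set Ψ : (Σ _ : ℕ, ℕ × ℕ) → Set (ℝ × ℝ) := fun a =>
    Orb k (zt m a.1 a.2.1) (s a.1 a.2.1 a.2.2) with hΨ
  have hmemA : ∀ a ∈ A, a.1 ∈ Finset.range (K - 1) ∧ a.2.1 ∈ Finset.range (m * 2 ^ (a.1 + 1)) ∧
      a.2.2 + 1 < (Ix m K a.1).card := by
    intro a ha
    rw [hA, Finset.mem_sigma, Finset.mem_product] at ha
    refine ⟨ha.1, ha.2.1, ?_⟩
    have := ha.2.2
    rw [Finset.mem_range] at this
    omega
  have hzt1 : ∀ a ∈ A, zt m a.1 a.2.1 ^ k = 1 := by
    intro a ha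
    have h1 := (hmemA a ha).1
    rw [Finset.mem_range] at h1
    exact zt_pow_one hm _ (by omega)
  have hΨmem : ∀ a ∈ A, Ψ a ∈ criticalOrbits (field (Pf k p) (Qf k p)) := by
    intro a ha
    obtain ⟨h1, h2, h3⟩ := hmemA a ha
    obtain ⟨c1, c2⟩ := hs a.1 a.2.1 h1 h2
    obtain ⟨d1, d2, d3⟩ := c1 a.2.2 h3
    exact ⟨toR (zt m a.1 a.2.1), L, _, Orb k (zt m a.1 a.2.1), Tp k (zt m a.1 a.2.1) p,
      family hkpos (hzt1 a ha) (zt_ne _ _ _) p hL0 hL1 (hε a.1 h1 a.2.1 h2).1,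
      s a.1 a.2.1 a.2.2, d1, d2, d3, rfl⟩
  have hΨinj : Set.InjOn Ψ (A : Set (Σ _ : ℕ, ℕ × ℕ)) := by
    intro a ha b hb hab
    have ha' : a ∈ A := ha
    have hb' : b ∈ A := hb
    obtain ⟨h1, h2, h3⟩ := hmemA a ha'
    obtain ⟨g1, g2, g3⟩ := hmemA b hb'
    obtain ⟨c1, c2⟩ := hs a.1 a.2.1 h1 h2
    obtain ⟨e1, e2⟩ := hs b.1 b.2.1 g1 g2
    have ms := (c1 a.2.2 h3).1
    have ms' := (e1 b.2.2 g3).1
    obtain ⟨i1, i2⟩ := Orb_inj hkpos (hzt1 a ha') (hzt1 b hb') ⟨ms.1, ms.2.trans hL1⟩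
      ⟨ms'.1, ms'.2.trans hL1⟩ hab
    obtain ⟨j1, j2⟩ := zt_inj hm (Finset.mem_range.mp h2) (Finset.mem_range.mp g2) i1
    obtain ⟨a1, a2, a3⟩ := a
    obtain ⟨b1, b2, b3⟩ := b
    simp only at j1 j2 i2 c2 e2 h3 g3
    subst j1
    subst j2
    have : a3 = b3 := by
      rcases lt_trichotomy a3 b3 with h | h | h
      · have := c2 a3 b3 h g3
        linarith
      · exact h
      · have := c2 b3 a3 h h3
        linarith
    rw [this]
  -- conclusion
  have hdeg : max (Pf k p).totalDegree (Qf k p).totalDegree = N + (k + 1) := by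
    rw [PQ_deg (by omega) (pf_ne hm hN d hε0.ne'), pf_deg hm hN d hε0.ne']
  have hcount : ((A.card : ℕ) : ℕ∞) ≤ (criticalOrbits (field (Pf k p) (Qf k p))).encard := by
    rw [← Set.encard_coe_eq_coe_finsetCard, ← hΨinj.encard_image]
    apply Set.encard_le_encard
    rintro C ⟨a, ha, rfl⟩
    exact hΨmem a ha
  rw [← hAcard]
  refine hcount.trans ?_
  unfold maxCriticalPeriods
  exact le_iSup_of_le (Pf k p) (le_iSup_of_le (Qf k p) (le_iSup_of_le hdeg le_rfl))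

theorem main (hlevel : S_LEVEL) (hasym : S_ASYM) : ∀ c : ℝ, c < 1 / (12 * Real.log 2) →
    ∃ n₀ : ℕ, ∀ n : ℕ, n₀ ≤ n →
      ENNReal.ofReal (c * n ^ 2 * Real.log n) ≤ (maxCriticalPeriods n : ENNReal) := by
  refine hasym (fun n => (maxCriticalPeriods n : ENNReal)) ?_
  intro m K N hm hK hN
  have h := lower_bound hlevel hm hK hN
  generalize (∑ j ∈ Finset.range (K - 1), m * 2 ^ (j + 1) * ((Ix m K j).card - 1)) = S at h ⊢
  calc ((S : ℕ) : ENNReal) = (((S : ℕ) : ℕ∞) : ENNReal) := by simp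
    _ ≤ (maxCriticalPeriods (N + (m * 2 ^ K + 1)) : ENNReal) := by exact_mod_cast h

/-- **A larger constant in the lower bound for the number of critical periods.** For every
`c < 1 / (12 log 2)` and all sufficiently large `n` the maximal number of critical periods of
planar polynomial systems of degree `n` is at least `c n² log n`. -/
theorem result : ∀ c : ℝ, c < 1 / (12 * Real.log 2) → ∃ n₀ : ℕ, ∀ n : ℕ, n₀ ≤ n →
    ENNReal.ofReal (c * n ^ 2 * Real.log n) ≤ (maxCriticalPeriods n : ENNReal) :=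
  main (Pool.Agent.Y372.CP.level_all Pool.Agent.Y580.CPG.hyp2_all)
    (Pool.Agent.Y308.CPG.asym_all Pool.Agent.Y580.CPG.card_all)

end Pool.Agent.Results.MP_48dd78_an.LargerConstant
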